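import Pool.Agent.H34C.Full

/-!
# Finite groups with fewer than `2 ^ (π(G) + 2)` cyclic subgroups are solvable

`cyc G` is the number of cyclic subgroups of `G` (the trivial one included), `npr G` the number of
distinct primes dividing `|G|`.
-/

namespace Pool.Agent.Results.MP_5fac9c_al.CyclicSubgroupCriterion

open Pool.Agent.H34C

universe u

/-- **Q1 has a positive answer**: every finite group with fewer than `2 ^ (npr G + 2)` cyclic
subgroups is solvable. -/
theorem result (G : Type u) [Group G] [Finite G] (h : cyc G < 2 ^ (npr G + 2)) :
    Group.IsSolvable G :=
  criterion G h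

end Pool.Agent.Results.MP_5fac9c_al.CyclicSubgroupCriterion
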